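import Pool.Agent.W684.FM.Ambient
import Pool.Agent.K1H57.MATools
import Pool.Agent.Zk92.ND.Main
import Pool.Agent.Results.MP_a1c723_lc.LuzinStarRothberger

set_option autoImplicit false

/-!
# MP_a1c723_lc, Q1: a large star-Rothberger Isbell–Mrówka space is consistent

Part (A): over every ground model some notion of forcing preserves cardinals and forces Martin's
axiom for `ℵ₁` dense sets. Part (B): over every ground model of this axiom the measure algebra
adding more than `ℵ₁` random reals (which is ccc) forces, for `K = ω₁`, the sentences `NonNullFor K`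
(some family of reals, indexed by `K`, is not null), `SuccFor K` (`|K| ≤ ℵ₁`) and the negation of
`DominatingFor K` (some family of functions, indexed by `K`, is dominating). Part (C), in ZFC:
these three sentences imply that there is an almost disjoint family `𝒜` with `|𝒜| = ℵ₁ ≥ cov(M)` and
`cof([|𝒜|]^ℵ₀) = |𝒜|` for which `Ψ(𝒜)` is star-Rothberger. So the answer to Q1 is yes.
-/

namespace Pool.Agent.Results.MP_a1c723_lc.Consistent

open Cardinal
open Pool.Agent.W684 (MartinAxiomAleph1)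
open Pool.Agent.W684.FM (MartinHolds MartinFor martinAxiomAleph1_iff martinFor_om1_iff)
open Pool.Agent.Helper669.Forcing (CardinalsPreserved)
open Pool.Agent.W684.FM (OmegaOnePreserved Om1)
open Pool.Agent.V11242.RN (NonNullFamily)
open Pool.Agent.V11242.RF (HasDominating)
open Pool.Agent.Helper872.RN (SuccLe)
open Pool.Agent.Zk92.ND (NonNullFor SuccFor DominatingFor)
open LuzinStarRothberger

theorem result :
    ((∃ (P : Type) (_ : Preorder P), Nonempty P ∧ ∀ p : P,
        p ∈ CardinalsPreserved.{0, 0} P ∧ p ∈ OmegaOnePreserved P ∧ p ∈ MartinHolds P Om1) ∧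
      (MartinFor Om1 ↔ MartinAxiomAleph1)) ∧
    (MartinAxiomAleph1 → ∃ (K P : Type) (_ : Preorder P), Nonempty P ∧
      (∀ A : Set P, (∀ p ∈ A, ∀ q ∈ A, p ≠ q → ¬ ∃ r, r ≤ p ∧ r ≤ q) → A.Countable) ∧
      ∀ p : P, p ∈ TH773.PSet.fand (NonNullFamily P K)
        (TH773.PSet.fand (SuccLe P ℕ K) (TH773.PSet.fnot (HasDominating P K)))) ∧
    (∀ K : Type, NonNullFor K → SuccFor K → ¬ DominatingFor K →
      ∃ 𝒜 : Set (Set ℕ), IsADFamily 𝒜 ∧ #𝒜 = ℵ₁ ∧ covM ≤ #𝒜 ∧ cofCountable 𝒜 = #𝒜 ∧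
        StarRothberger (Psi 𝒜)) := by
  refine ⟨⟨Pool.Agent.W684.FM.exists_forcing Om1, martinFor_om1_iff⟩, fun hMA => ?_,
    fun K h1 h2 h3 => ?_⟩
  · have hK : #((ℵ₁ : Cardinal.{0}).out) = ℵ₁ := Cardinal.mk_out _
    refine ⟨(ℵ₁ : Cardinal.{0}).out, Zk92.ND.exists_forcing hK ?_⟩
    rintro ⟨D, hD⟩
    obtain ⟨g, hg⟩ := Pool.Agent.K1H57.MATools.bounded (martinAxiomAleph1_iff.1 hMA)
      (aleph0_le_aleph 1) hK.le D
    obtain ⟨l, N, hN⟩ := hD g
    obtain ⟨n, h1, h2⟩ := ((hg l).and (Filter.eventually_ge_atTop N)).exists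
    exact absurd (hN n h2) (not_le.2 h1)
  · have hK1 := Zk92.ND.le_aleph_one h2
    have hK0 := Zk92.ND.aleph0_lt h1
    refine LuzinStarRothberger.result.2.2 ⟨?_, ?_⟩
    · obtain ⟨F, hF, hF2⟩ := Zk92.ND.exists_family h1
      have h4 : covM ≤ #F := csInf_le' ⟨F, rfl, hF2⟩
      exact h4.trans (hF.trans hK1)
    · by_contra hcon
      have hne : {κ | ∃ D : Set (ℕ → ℕ), #D = κ ∧
          ∀ f : ℕ → ℕ, ∃ g ∈ D, ∀ᶠ n in Filter.atTop, f n ≤ g n}.Nonempty :=
        ⟨_, Set.univ, rfl, fun f => ⟨f, Set.mem_univ _, Filter.Eventually.of_forall fun _ => le_rfl⟩⟩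
      obtain ⟨D, hD1, hD2⟩ := csInf_mem hne
      have hDle : #D ≤ #K := by
        rw [hD1]
        refine (not_lt.1 hcon).trans ?_
        rw [← Cardinal.succ_aleph0]
        exact Order.succ_le_of_lt hK0
      obtain ⟨j⟩ := hDle
      have : Nonempty D := by
        obtain ⟨g, hg, -⟩ := hD2 fun _ => 0
        exact ⟨⟨g, hg⟩⟩
      refine h3 ⟨fun k => (Function.invFun j k).1, fun f => ?_⟩
      obtain ⟨g, hg, hfg⟩ := hD2 f
      obtain ⟨N, hN⟩ := Filter.eventually_atTop.1 hfg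
      refine ⟨j ⟨g, hg⟩, N, fun n hn => ?_⟩
      simp only
      rw [Function.leftInverse_invFun j.injective]
      exact hN n hn

end Pool.Agent.Results.MP_a1c723_lc.Consistent
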